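import Pool.Agent.K1H12.SW.All

/-!
# The order of the obstruction to type FF and cyclic subgroups of finite quotients

Let `G` be a group of type FP and `π : G → Q` a homomorphism to a finite group. If the preimages of the
cyclic subgroups of `Q` are of type FF, or, more generally, if the order of their obstruction divides `a`,
then the order of the obstruction of `G` divides `a |Q|²`.

The proof is in `Pool/Agent/K1H12/SW` and in the pieces `Pool/Agent/K1H*/HE` by helpers 1, 10, 16, 20, 21,
33, 37, 38, 42, 59, 65, 74, 78, 85, 89, 99. It does not use `K`-theory: the modules over `ℤG` with finite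
free resolutions have the two-out-of-three property for short exact sequences; two modules `M`, `N` are in
the same class if `M × P` and `N × P` have finite free resolutions for a finitely generated projective
`P`; for lattices `M ⊆ L` of finite index and a finite module `S` (all with an action of a finite quotient
of `G`), `Hom(M, S)` and `Hom(L, S)` are in the same class; induction theorems of Solomon and Artin give
permutation lattices `ℤ^m ⊕ ℤ[X]` and `ℤ[Y]`, with stabilizers in the family of subgroups, which are
isomorphic over `ℚ`, so that the first is embedded in the second with a finite cokernel `T`, and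
`Hom(ℤ^m ⊕ ℤ[X], T)` and `Hom(ℤ[Y], T)` are in the same class.
-/

set_option autoImplicit false

namespace Pool.Agent.Results.MP_d19827_al.CyclicPreimages

/-- the trivial `ℤG`-module `A` has a resolution of finite length by finitely generated projective
modules -/
def ProjRes (G : Type) [Group G] (A : Type) [AddCommGroup A] : Prop :=
  ∃ (P : ℕ → Type) (_ : ∀ i, AddCommGroup (P i)) (_ : ∀ i, Module (MonoidAlgebra ℤ G) (P i))
    (d : ∀ i, P (i + 1) →ₗ[MonoidAlgebra ℤ G] P i) (ε : P 0 →+ A) (n : ℕ),
    (∀ i, Module.Finite (MonoidAlgebra ℤ G) (P i)) ∧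
    (∀ i, Module.Projective (MonoidAlgebra ℤ G) (P i)) ∧
    (∀ i, n < i → Subsingleton (P i)) ∧
    (∀ (g : G) (x : P 0), ε (MonoidAlgebra.of ℤ G g • x) = ε x) ∧
    Function.Surjective ε ∧
    (∀ x : P 0, ε x = 0 ↔ x ∈ LinearMap.range (d 0)) ∧
    (∀ i, LinearMap.range (d (i + 1)) = LinearMap.ker (d i))

/-- the trivial `ℤG`-module `A` has a resolution of finite length by finitely generated free
modules -/
def FreeRes (G : Type) [Group G] (A : Type) [AddCommGroup A] : Prop :=
  ∃ (P : ℕ → Type) (_ : ∀ i, AddCommGroup (P i)) (_ : ∀ i, Module (MonoidAlgebra ℤ G) (P i))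
    (d : ∀ i, P (i + 1) →ₗ[MonoidAlgebra ℤ G] P i) (ε : P 0 →+ A) (n : ℕ),
    (∀ i, Module.Finite (MonoidAlgebra ℤ G) (P i)) ∧
    (∀ i, Module.Free (MonoidAlgebra ℤ G) (P i)) ∧
    (∀ i, n < i → Subsingleton (P i)) ∧
    (∀ (g : G) (x : P 0), ε (MonoidAlgebra.of ℤ G g • x) = ε x) ∧
    Function.Surjective ε ∧
    (∀ x : P 0, ε x = 0 ↔ x ∈ LinearMap.range (d 0)) ∧
    (∀ i, LinearMap.range (d (i + 1)) = LinearMap.ker (d i))

/-- type FP -/
def TypeFP (G : Type) [Group G] : Prop := ProjRes G ℤ

/-- the trivial module `ℤ^m` has a finite free resolution (type FF is the case `m = 1`) -/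
def PowFF (G : Type) [Group G] (m : ℕ) : Prop := FreeRes G (Fin m → ℤ)

/-- Let `G` be a group of type FP and `π : G → Q` a homomorphism to a finite group. If the trivial module
`ℤ^a` has a finite free resolution over the group rings of the preimages of all cyclic subgroups of `Q`
(for example `a = 1` and these preimages are of type FF), then `ℤ^(a |Q|²)` has a finite free
resolution over `ℤG`: the order of Wall's obstruction of `G` divides `a |Q|²`. -/
theorem result (G : Type) [Group G] (hG : TypeFP G) (Q : Type) [Group Q] [Finite Q] (π : G →* Q)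
    (a : ℕ) (h : ∀ C : Subgroup Q, IsCyclic C → PowFF (C.comap π) a) :
    PowFF G (a * Nat.card Q ^ 2) := by
  open Pool.Agent.K1H12.SW in
  have h1 : FRm G (a * (Nat.card Q * Nat.card Q)) := by
    rw [frm_iff pieces.DEF]
    refine asm pieces.A pieces.B pieces.C pieces.IND pieces.PERM pieces.EL pieces.CH pieces.RAT
      G Q π _ (Nat.card Q) a (art Q) ((pieces.DEF G ℤ).1 hG) ?_
    intro C hC
    rw [← frm_iff pieces.DEF]
    exact h C hC
  rw [← sq] at h1
  exact h1

end Pool.Agent.Results.MP_d19827_al.CyclicPreimages
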