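import Pool.Agent.K1H12.SW.All

/-!
# Hyperelementary induction for Serre's question

Let `G` be a group of type FP and `π : G → Q` a homomorphism to a finite group. Then `G` is of type FF if
and only if the preimages of the hyperelementary subgroups of `Q` are of type FF. More precisely, for a
set `S` of primes, the order of the obstruction of `G` (the generator of the numbers `m` such that the
trivial module `ℤ^m` has a finite free resolution) has no prime factor in `S` if and only if this holds
for the preimages of the subgroups of `Q` which are `p`-hyperelementary for some `p` in `S`. (For `S = {p}`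
only the `p`-hyperelementary subgroups of `Q` are needed, for the set of all primes one gets type FF.)

The proof is in `Pool/Agent/K1H12/SW` and in the pieces `Pool/Agent/K1H*/HE` by helpers 1, 10, 16, 20, 21,
33, 37, 38, 42, 59, 65, 74, 78, 85, 89, 99. It does not use `K`-theory: the modules over `ℤG` with finite
free resolutions have the two-out-of-three property for short exact sequences; two modules `M`, `N` are in
the same class if `M × P` and `N × P` have finite free resolutions for a finitely generated projective
`P`; for lattices `M ⊆ L` of finite index and a finite module `S` (all with an action of a finite quotient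
of `G`), `Hom(M, S)` and `Hom(L, S)` are in the same class; induction theorems of Solomon and Artin give
permutation lattices `ℤ^m ⊕ ℤ[X]` and `ℤ[Y]`, with stabilizers in the family of subgroups, which are
isomorphic over `ℚ`, so that the first is embedded in the second with a finite cokernel `T`, and
`Hom(ℤ^m ⊕ ℤ[X], T)` and `Hom(ℤ[Y], T)` are in the same class.
-/

set_option autoImplicit false

namespace Pool.Agent.Results.MP_d19827_al.HyperelementaryInduction

/-- the trivial `ℤG`-module `A` has a resolution of finite length by finitely generated projective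
modules -/
def ProjRes (G : Type) [Group G] (A : Type) [AddCommGroup A] : Prop :=
  ∃ (P : ℕ → Type) (_ : ∀ i, AddCommGroup (P i)) (_ : ∀ i, Module (MonoidAlgebra ℤ G) (P i))
    (d : ∀ i, P (i + 1) →ₗ[MonoidAlgebra ℤ G] P i) (ε : P 0 →+ A) (n : ℕ),
    (∀ i, Module.Finite (MonoidAlgebra ℤ G) (P i)) ∧
    (∀ i, Module.Projective (MonoidAlgebra ℤ G) (P i)) ∧
    (∀ i, n < i → Subsingleton (P i)) ∧
    (∀ (g : G) (x : P 0), ε (MonoidAlgebra.of ℤ G g • x) = ε x) ∧
    Function.Surjective ε ∧
    (∀ x : P 0, ε x = 0 ↔ x ∈ LinearMap.range (d 0)) ∧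
    (∀ i, LinearMap.range (d (i + 1)) = LinearMap.ker (d i))

/-- the trivial `ℤG`-module `A` has a resolution of finite length by finitely generated free
modules -/
def FreeRes (G : Type) [Group G] (A : Type) [AddCommGroup A] : Prop :=
  ∃ (P : ℕ → Type) (_ : ∀ i, AddCommGroup (P i)) (_ : ∀ i, Module (MonoidAlgebra ℤ G) (P i))
    (d : ∀ i, P (i + 1) →ₗ[MonoidAlgebra ℤ G] P i) (ε : P 0 →+ A) (n : ℕ),
    (∀ i, Module.Finite (MonoidAlgebra ℤ G) (P i)) ∧
    (∀ i, Module.Free (MonoidAlgebra ℤ G) (P i)) ∧
    (∀ i, n < i → Subsingleton (P i)) ∧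
    (∀ (g : G) (x : P 0), ε (MonoidAlgebra.of ℤ G g • x) = ε x) ∧
    Function.Surjective ε ∧
    (∀ x : P 0, ε x = 0 ↔ x ∈ LinearMap.range (d 0)) ∧
    (∀ i, LinearMap.range (d (i + 1)) = LinearMap.ker (d i))

/-- type FP -/
def TypeFP (G : Type) [Group G] : Prop := ProjRes G ℤ

/-- type FF -/
def TypeFF (G : Type) [Group G] : Prop := FreeRes G ℤ

/-- the trivial module `ℤ^m` has a finite free resolution (type FF is the case `m = 1`) -/
def PowFF (G : Type) [Group G] (m : ℕ) : Prop := FreeRes G (Fin m → ℤ)

/-- the group `H` is `p`-hyperelementary: it has a cyclic normal subgroup of order prime to `p` whose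
index is a power of `p` -/
def Hyperelementary (p : ℕ) (H : Type) [Group H] : Prop :=
  ∃ C : Subgroup H, C.Normal ∧ IsCyclic C ∧ (Nat.card C).Coprime p ∧ ∃ k : ℕ, C.index = p ^ k

/-- Let `G` be a group of type FP and `π : G → Q` a homomorphism to a finite group. (1) `G` is of type FF
if and only if the preimages of all hyperelementary subgroups of `Q` are of type FF. (2) Let `S` be a set
of primes. There is a number `m` with no prime factor in `S` such that `ℤ^m` has a finite free
resolution over `ℤG` if and only if there are such numbers for the preimages of all subgroups of `Q` which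
are `p`-hyperelementary for some `p` in `S`. (Part (1) is the case of the set of all primes.) -/
theorem result (G : Type) [Group G] (hG : TypeFP G) (Q : Type) [Group Q] [Finite Q] (π : G →* Q) :
    (TypeFF G ↔ ∀ H : Subgroup Q, (∃ p : ℕ, p.Prime ∧ Hyperelementary p H) →
      TypeFF (H.comap π)) ∧
    ∀ S : Set ℕ, (∀ p ∈ S, p.Prime) →
      ((∃ m : ℕ, (∀ p ∈ S, ¬ p ∣ m) ∧ PowFF G m) ↔
        ∀ H : Subgroup Q, (∃ p ∈ S, Hyperelementary p H) →
          ∃ m : ℕ, (∀ p ∈ S, ¬ p ∣ m) ∧ PowFF (H.comap π) m) := by
  open Pool.Agent.K1H12.SW in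
  refine ⟨part1 pieces hG π, fun S hS => ⟨?_, fun h => ?_⟩⟩
  · rintro ⟨m, h1, h2⟩ H _
    exact ⟨m, h1, (pieces.SUB G _ (comap_fi π H) _).2 h2⟩
  · obtain ⟨d, hd, hdm⟩ := exists_order pieces G
    refine ⟨d, fun p hp hpd => ?_, hd⟩
    obtain ⟨m, hm, hm'⟩ := (part2 pieces hG π p (hS p hp)).2 (fun H hH => by
      obtain ⟨m, hm, hm'⟩ := h H ⟨p, hp, hH⟩
      exact ⟨m, hm p hp, hm'⟩)
    exact hm (hpd.trans (hdm m hm'))

end Pool.Agent.Results.MP_d19827_al.HyperelementaryInduction
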