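import Pool.Agent.K1H12.SW.All

/-!
# Serre's question for groups with a subgroup of finite index of type FF

If a group of type FP which has a subgroup of finite index of type FF is not of type FF itself, then it has
a subgroup `L` of finite index which is not of type FF but has a normal subgroup `M` of prime index of type
FF. So Serre's question for the groups with a subgroup of finite index of type FF is the question for the
extensions of groups of type FF by groups of prime order. Moreover `L` can be chosen minimal over a
normal subgroup `N` of finite index of type FF, and then `L / N` is cyclic, or it is `p`-hyperelementary and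
the obstruction to type FF for `L` has `p`-power order.

This uses the result `HyperelementaryInduction`, by which, for example, `L / N` is not a
nonabelian simple group.

The proof is in `Pool/Agent/K1H12/SW` and in the pieces `Pool/Agent/K1H*/HE` by helpers 1, 10, 16, 20, 21,
33, 37, 38, 42, 59, 65, 74, 78, 85, 89, 99. It does not use `K`-theory: the modules over `ℤG` with finite
free resolutions have the two-out-of-three property for short exact sequences; two modules `M`, `N` are in
the same class if `M × P` and `N × P` have finite free resolutions for a finitely generated projective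
`P`; for lattices `M ⊆ L` of finite index and a finite module `S` (all with an action of a finite quotient
of `G`), `Hom(M, S)` and `Hom(L, S)` are in the same class; induction theorems of Solomon and Artin give
permutation lattices `ℤ^m ⊕ ℤ[X]` and `ℤ[Y]`, with stabilizers in the family of subgroups, which are
isomorphic over `ℚ`, so that the first is embedded in the second with a finite cokernel `T`, and
`Hom(ℤ^m ⊕ ℤ[X], T)` and `Hom(ℤ[Y], T)` are in the same class.
-/

set_option autoImplicit false

namespace Pool.Agent.Results.MP_d19827_al.MinimalCounterexamples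

/-- the trivial `ℤG`-module `A` has a resolution of finite length by finitely generated projective
modules -/
def ProjRes (G : Type) [Group G] (A : Type) [AddCommGroup A] : Prop :=
  ∃ (P : ℕ → Type) (_ : ∀ i, AddCommGroup (P i)) (_ : ∀ i, Module (MonoidAlgebra ℤ G) (P i))
    (d : ∀ i, P (i + 1) →ₗ[MonoidAlgebra ℤ G] P i) (ε : P 0 →+ A) (n : ℕ),
    (∀ i, Module.Finite (MonoidAlgebra ℤ G) (P i)) ∧
    (∀ i, Module.Projective (MonoidAlgebra ℤ G) (P i)) ∧
    (∀ i, n < i → Subsingleton (P i)) ∧
    (∀ (g : G) (x : P 0), ε (MonoidAlgebra.of ℤ G g • x) = ε x) ∧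
    Function.Surjective ε ∧
    (∀ x : P 0, ε x = 0 ↔ x ∈ LinearMap.range (d 0)) ∧
    (∀ i, LinearMap.range (d (i + 1)) = LinearMap.ker (d i))

/-- the trivial `ℤG`-module `A` has a resolution of finite length by finitely generated free
modules -/
def FreeRes (G : Type) [Group G] (A : Type) [AddCommGroup A] : Prop :=
  ∃ (P : ℕ → Type) (_ : ∀ i, AddCommGroup (P i)) (_ : ∀ i, Module (MonoidAlgebra ℤ G) (P i))
    (d : ∀ i, P (i + 1) →ₗ[MonoidAlgebra ℤ G] P i) (ε : P 0 →+ A) (n : ℕ),
    (∀ i, Module.Finite (MonoidAlgebra ℤ G) (P i)) ∧
    (∀ i, Module.Free (MonoidAlgebra ℤ G) (P i)) ∧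
    (∀ i, n < i → Subsingleton (P i)) ∧
    (∀ (g : G) (x : P 0), ε (MonoidAlgebra.of ℤ G g • x) = ε x) ∧
    Function.Surjective ε ∧
    (∀ x : P 0, ε x = 0 ↔ x ∈ LinearMap.range (d 0)) ∧
    (∀ i, LinearMap.range (d (i + 1)) = LinearMap.ker (d i))

/-- type FP -/
def TypeFP (G : Type) [Group G] : Prop := ProjRes G ℤ

/-- type FF -/
def TypeFF (G : Type) [Group G] : Prop := FreeRes G ℤ

/-- the trivial module `ℤ^m` has a finite free resolution (type FF is the case `m = 1`) -/
def PowFF (G : Type) [Group G] (m : ℕ) : Prop := FreeRes G (Fin m → ℤ)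

/-- the group `H` is `p`-hyperelementary: it has a cyclic normal subgroup of order prime to `p` whose
index is a power of `p` -/
def Hyperelementary (p : ℕ) (H : Type) [Group H] : Prop :=
  ∃ C : Subgroup H, C.Normal ∧ IsCyclic C ∧ (Nat.card C).Coprime p ∧ ∃ k : ℕ, C.index = p ^ k

/-- Let `G` be a group of type FP which is not of type FF, but has a subgroup `K` of finite index of
type FF. Then there are a subgroup `L` of finite index of `G` which is not of type FF, and a normal
subgroup `N` of finite index of `G` contained in `L` such that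
* `L` has a normal subgroup `M` of prime index which contains `N` and is of type FF; more generally `N`
  and all subgroups `M` with `N ⊆ M ⊊ L` are of type FF;
* `L / N` is cyclic, or it is `p`-hyperelementary for a prime `p` and the trivial module `ℤ^(p^k)` has a
  finite free resolution over `ℤL` for some `k`. -/
theorem result (G : Type) [Group G] (hG : TypeFP G) (hn : ¬ TypeFF G) (K : Subgroup G)
    (hK : K.FiniteIndex) (hKF : TypeFF K) :
    ∃ L N : Subgroup G, L.FiniteIndex ∧ ¬ TypeFF L ∧ N.Normal ∧ N.FiniteIndex ∧ N ≤ L ∧ TypeFF N ∧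
      (∃ M : Subgroup L, M.Normal ∧ M.index.Prime ∧ N.subgroupOf L ≤ M ∧ TypeFF M) ∧
      (∀ M : Subgroup G, N ≤ M → M < L → TypeFF M) ∧
      ∃ (_ : (N.subgroupOf L).Normal) (p : ℕ), p.Prime ∧
        Hyperelementary p (L ⧸ N.subgroupOf L) ∧
        (IsCyclic (L ⧸ N.subgroupOf L) ∨ ∃ k : ℕ, PowFF L (p ^ k)) := by
  open Pool.Agent.K1H12.SW in
  obtain ⟨L, N, h1, h2, h3, h4, h5, h6, h7, p, hp, h8, h9⟩ := part4 pieces hG K hK hKF hn
  refine ⟨L, N, Subgroup.finiteIndex_of_le h4, h5, h1, h2, h4, h3, ?_, h6, h7, p, hp, h8, h9⟩
  exact prime_index pieces L N h2 h3 h4 h5 h6 h7 hp h8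

end Pool.Agent.Results.MP_d19827_al.MinimalCounterexamples
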